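import Pool.Agent.H20.MT.Stmts
import Pool.Agent.H20.MT.Rho

/-! Module BVT of project MTA (helper95): Bombieri-Vinogradov with divisor weights. -/

set_option autoImplicit false

namespace MTA
open Finset

private theorem bvt_card (M m a : ℕ) (hm : 0 < m) :
    ((((Icc 2 M).filter (fun p => p.Prime ∧ p ≡ a [MOD m])).card : ℕ) : ℝ) ≤ ((M : ℝ) + 1) / m + 1 := by
  have h1 : ((Icc 2 M).filter (fun p => p.Prime ∧ p ≡ a [MOD m])).card ≤
      Nat.count (fun n => n ≡ a [MOD m]) (M + 1) := by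
    rw [Nat.count_eq_card_filter_range]
    apply card_le_card
    intro p hp
    rw [mem_filter, mem_Icc] at hp
    rw [mem_filter, mem_range]
    exact ⟨by omega, hp.2.2⟩
  rw [Nat.count_modEq_card _ hm] at h1
  have h2 : ((((Icc 2 M).filter (fun p => p.Prime ∧ p ≡ a [MOD m])).card : ℕ) : ℝ) ≤
      (((M + 1) / m : ℕ) : ℝ) + 1 := by
    have h3 : (if a % m < (M + 1) % m then 1 else 0) ≤ 1 := by split_ifs <;> omega
    exact_mod_cast h1.trans (Nat.add_le_add_left h3 _)
  have h4 : (((M + 1) / m : ℕ) : ℝ) ≤ (((M + 1 : ℕ) : ℝ)) / (m : ℝ) := Nat.cast_div_le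
  push_cast at h4
  linarith

/-- trivial bound for the sum in a progression -/
private theorem bvt_THa (c m a : ℕ) (x : ℝ) (hc : 1 ≤ c) (hm : 0 < m) (hx3 : 3 ≤ x)
    (hx : 10 * (c : ℝ) ≤ x) (hmx : (m : ℝ) ≤ x) :
    0 ≤ THa c x m a ∧ THa c x m a ≤ 22 * c * x * Real.log x / m := by
  have hc1 : (1 : ℝ) ≤ c := by exact_mod_cast hc
  have hm1 : (0 : ℝ) < m := by exact_mod_cast hm
  have hterm : ∀ p ∈ (Icc 2 (⌊8 * c * x⌋₊ + 1)).filter (fun p => p.Prime ∧ p ≡ a [MOD m]),
      0 ≤ Real.log p * rho (Real.log (((p : ℝ) - 1) / (c * x))) ∧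
      Real.log p * rho (Real.log (((p : ℝ) - 1) / (c * x))) ≤ 2 * Real.log x := by
    intro p hp
    rw [mem_filter, mem_Icc] at hp
    have hp2 : (2 : ℝ) ≤ p := by exact_mod_cast hp.1.1
    have hpM : (p : ℝ) ≤ 8 * c * x + 1 := by
      have h1 : (p : ℝ) ≤ ((⌊8 * c * x⌋₊ + 1 : ℕ) : ℝ) := by exact_mod_cast hp.1.2
      have h2 : ((⌊8 * c * x⌋₊ : ℕ) : ℝ) ≤ 8 * c * x := Nat.floor_le (by positivity)
      push_cast at h1
      linarith
    have hpx : (p : ℝ) ≤ x ^ 2 := by nlinarith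
    have hlog : Real.log p ≤ 2 * Real.log x := by
      calc Real.log p ≤ Real.log (x ^ 2) := Real.log_le_log (by linarith) hpx
        _ = 2 * Real.log x := by rw [Real.log_pow]; norm_num
    have hl0 : 0 ≤ Real.log p := Real.log_nonneg (by linarith)
    refine ⟨mul_nonneg hl0 (rho_nonneg _), ?_⟩
    calc Real.log p * rho (Real.log (((p : ℝ) - 1) / (c * x))) ≤ Real.log p * 1 :=
          mul_le_mul_of_nonneg_left (rho_le_one _) hl0
      _ ≤ 2 * Real.log x := by rw [mul_one]; exact hlog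
  unfold THa
  refine ⟨sum_nonneg fun p hp => (hterm p hp).1, ?_⟩
  have h1 := sum_le_card_nsmul _ _ _ fun p hp => (hterm p hp).2
  refine h1.trans ?_
  rw [nsmul_eq_mul]
  have h2 := bvt_card (⌊8 * c * x⌋₊ + 1) m a hm
  have h3 : ((⌊8 * c * x⌋₊ : ℕ) : ℝ) ≤ 8 * c * x := Nat.floor_le (by positivity)
  have hlx : 0 ≤ Real.log x := Real.log_nonneg (by linarith)
  have h4 : (((⌊8 * c * x⌋₊ + 1 : ℕ) : ℝ) + 1) / m + 1 ≤ 11 * c * x / m := by
    rw [div_add_one hm1.ne', div_le_div_iff_of_pos_right hm1]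
    push_cast
    nlinarith
  calc ((((Icc 2 (⌊8 * c * x⌋₊ + 1)).filter (fun p => p.Prime ∧ p ≡ a [MOD m])).card : ℕ) : ℝ) *
        (2 * Real.log x) ≤ (11 * c * x / m) * (2 * Real.log x) :=
        mul_le_mul_of_nonneg_right (h2.trans h4) (by positivity)
    _ = 22 * c * x * Real.log x / m := by ring

/-- trivial bound for the maximal error -/
private theorem bvt_Emax (c m : ℕ) (x C1 : ℝ) (hc : 1 ≤ c) (hm : 0 < m) (hx3 : 3 ≤ x)
    (hx : 10 * (c : ℝ) ≤ x) (hmx : (m : ℝ) ≤ x) (hC1 : 0 < C1) (hTH0 : 0 ≤ TH c x)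
    (hTH : TH c x ≤ C1 * (c * x)) (hl : 1 ≤ Real.log x) :
    Emax c x m ≤ (22 + C1) * c * x * Real.log x / m.totient := by
  have hφ : 0 < m.totient := Nat.totient_pos.2 hm
  have hφ1 : (0 : ℝ) < m.totient := by exact_mod_cast hφ
  have hφm : (m.totient : ℝ) ≤ m := by exact_mod_cast Nat.totient_le m
  have hc1 : (1 : ℝ) ≤ c := by exact_mod_cast hc
  have hm1 : (0 : ℝ) < m := by exact_mod_cast hm
  have hb : 0 ≤ (22 + C1) * c * x * Real.log x / m.totient := by positivity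
  have : Nonempty (Fin m) := ⟨⟨0, hm⟩⟩
  unfold Emax
  apply ciSup_le
  intro a
  split_ifs with ha
  · obtain ⟨h1, h2⟩ := bvt_THa c m a x hc hm hx3 hx hmx
    have h3 : 22 * c * x * Real.log x / m ≤ 22 * c * x * Real.log x / m.totient :=
      div_le_div_of_nonneg_left (by positivity) hφ1 hφm
    have h4 : 0 ≤ TH c x / m.totient := div_nonneg hTH0 hφ1.le
    have h5 : TH c x / m.totient ≤ C1 * c * x * Real.log x / m.totient := by
      rw [div_le_div_iff_of_pos_right hφ1]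
      refine hTH.trans ?_
      have : 0 ≤ C1 * c * x := by positivity
      nlinarith
    unfold EE
    rw [abs_le]
    constructor
    · have : C1 * c * x * Real.log x / m.totient ≤ (22 + C1) * c * x * Real.log x / m.totient := by
        rw [div_le_div_iff_of_pos_right hφ1]
        have : 0 ≤ c * x * Real.log x := by positivity
        nlinarith
      linarith
    · have : 22 * c * x * Real.log x / m.totient ≤ (22 + C1) * c * x * Real.log x / m.totient := by
        rw [div_le_div_iff_of_pos_right hφ1]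
        have : 0 ≤ C1 * (c * x * Real.log x) := by positivity
        nlinarith
      linarith
  · exact hb

/-- sum over squarefree integers and Euler product -/
private theorem bvt_euler (n K : ℕ) :
    ∑ q ∈ (Icc 1 n).filter Squarefree, ((K : ℝ) ^ 2) ^ q.primeFactors.card / q.totient ≤
      ∏ p ∈ (Icc 2 n).filter Nat.Prime, (1 + (K : ℝ) ^ 2 * (1 / ((p : ℝ) - 1))) := by
  rw [prod_one_add]
  have hq : ∀ q ∈ (Icc 1 n).filter Squarefree, ((K : ℝ) ^ 2) ^ q.primeFactors.card / q.totient =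
      ∏ p ∈ q.primeFactors, (K : ℝ) ^ 2 * (1 / ((p : ℝ) - 1)) := by
    intro q hq
    rw [mem_filter] at hq
    have h1 : (q.totient : ℝ) = ∏ p ∈ q.primeFactors, ((p : ℝ) - 1) := by
      have h2 := Nat.totient_mul_prod_primeFactors q
      rw [Nat.prod_primeFactors_of_squarefree hq.2, mul_comm] at h2
      have h3 : 0 < q := Nat.pos_of_ne_zero hq.2.ne_zero
      have h4 := Nat.eq_of_mul_eq_mul_left h3 h2
      rw [h4, Nat.cast_prod]
      refine prod_congr rfl fun p hp => ?_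
      rw [Nat.cast_sub (Nat.prime_of_mem_primeFactors hp).one_le, Nat.cast_one]
    rw [prod_mul_distrib, prod_const, h1]
    simp only [one_div, prod_inv_distrib]
    rw [div_eq_mul_inv]
  rw [sum_congr rfl hq]
  have hinj : Set.InjOn Nat.primeFactors (((Icc 1 n).filter Squarefree : Finset ℕ) : Set ℕ) := by
    intro q hq r hr h
    rw [mem_coe, mem_filter] at hq hr
    rw [← Nat.prod_primeFactors_of_squarefree hq.2, ← Nat.prod_primeFactors_of_squarefree hr.2]
    exact congrArg (fun s : Finset ℕ => ∏ p ∈ s, p) h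
  rw [← sum_image (f := fun s : Finset ℕ => ∏ p ∈ s, (K : ℝ) ^ 2 * (1 / ((p : ℝ) - 1))) hinj]
  apply sum_le_sum_of_subset_of_nonneg
  · intro s hs
    rw [mem_image] at hs
    obtain ⟨q, hq, rfl⟩ := hs
    rw [mem_filter, mem_Icc] at hq
    rw [mem_powerset]
    intro p hp
    rw [mem_filter, mem_Icc]
    have hp' := Nat.prime_of_mem_primeFactors hp
    have := Nat.le_of_dvd (by omega) (Nat.dvd_of_mem_primeFactors hp)
    exact ⟨⟨hp'.two_le, by omega⟩, hp'⟩
  · intro s hs _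
    rw [mem_powerset] at hs
    apply prod_nonneg
    intro p hp
    have h1 := hs hp
    rw [mem_filter, mem_Icc] at h1
    have h2 : (2 : ℝ) ≤ p := by exact_mod_cast h1.1.1
    apply mul_nonneg (by positivity)
    apply div_nonneg (by norm_num)
    linarith

theorem BVT (h1 : S_BV) (h2 : S_CHE) (h3 : S_MERT) : S_BVT := by
  intro A K c W hc hW
  obtain ⟨B, x1, hBV⟩ := h1 (2 * A + K ^ 2 + 3) c hc
  obtain ⟨c1, C1, hc1, hC1, hCHE⟩ := h2
  obtain ⟨x2, hx2⟩ := hCHE c hc
  obtain ⟨CM, hCM, hM⟩ := h3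
  set C3 : ℝ := (22 + C1) * c * Real.exp ((K : ℝ) ^ 2 * CM) with hC3
  have hC3p : 0 < C3 := by
    have : (1 : ℝ) ≤ c := by exact_mod_cast hc
    positivity
  refine ⟨B, max (max (max x1 x2) (max 3 (10 * c))) (max ((W : ℝ) ^ 30) (Real.exp (C3 + 1))),
    fun x hx hG => ?_⟩
  simp only [max_le_iff] at hx
  obtain ⟨⟨⟨hxx1, hxx2⟩, hx3, hxc⟩, hxW, hxe⟩ := hx
  have hx0 : 0 < x := by linarith
  have hx1 : 1 ≤ x := by linarith
  set Lg := Real.log x with hLg
  have hL3 : C3 + 1 ≤ Lg := by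
    rw [hLg, Real.le_log_iff_exp_le hx0]
    exact hxe
  have hL1 : 1 ≤ Lg := by linarith
  have hL0 : 0 < Lg := by linarith
  obtain ⟨hTH0, hTH⟩ := hx2 x hxx2
  have hc1' : (1 : ℝ) ≤ c := by exact_mod_cast hc
  have hTH0' : 0 ≤ TH c x := le_trans (by positivity) hTH0
  set n := ⌊x ^ (1 / 6 : ℝ)⌋₊ with hn
  have hnx : (n : ℝ) ≤ x ^ (1 / 6 : ℝ) := Nat.floor_le (by positivity)
  have hW30 : (W : ℝ) ≤ x ^ (1 / 30 : ℝ) := by
    have h4 : ((W : ℝ) ^ 30) ^ (1 / 30 : ℝ) ≤ x ^ (1 / 30 : ℝ) :=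
      Real.rpow_le_rpow (by positivity) hxW (by norm_num)
    have h5 : ((W : ℝ) ^ 30) ^ (1 / 30 : ℝ) = W := by
      rw [← Real.rpow_natCast, ← Real.rpow_mul (by positivity)]
      norm_num
    rwa [h5] at h4
  have hWq : ∀ q ∈ (Icc 1 n).filter Squarefree, ((W * q : ℕ) : ℝ) ≤ x ^ (1 / 5 : ℝ) := by
    intro q hq
    rw [mem_filter, mem_Icc] at hq
    have h4 : (q : ℝ) ≤ x ^ (1 / 6 : ℝ) := le_trans (by exact_mod_cast hq.1.2) hnx
    have h5 : x ^ (1 / 5 : ℝ) = x ^ (1 / 30 : ℝ) * x ^ (1 / 6 : ℝ) := by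
      rw [← Real.rpow_add hx0]
      norm_num
    rw [h5, Nat.cast_mul]
    exact mul_le_mul hW30 h4 (by positivity) (by positivity)
  have hx15 : x ^ (1 / 5 : ℝ) ≤ x := by
    calc x ^ (1 / 5 : ℝ) ≤ x ^ (1 : ℝ) := Real.rpow_le_rpow_of_exponent_le hx1 (by norm_num)
      _ = x := Real.rpow_one x
  -- the two sums
  have hS1 : ∑ q ∈ (Icc 1 n).filter Squarefree, Emax c x (W * q) ≤ x / Lg ^ (2 * A + K ^ 2 + 3) := by
    refine le_trans ?_ (hBV x hxx1 hG)
    have hinj : Set.InjOn (fun q => W * q) (((Icc 1 n).filter Squarefree : Finset ℕ) : Set ℕ) := by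
      intro q _ r _ h
      exact Nat.eq_of_mul_eq_mul_left (by omega) h
    rw [← sum_image (f := fun m => Emax c x m) hinj]
    apply sum_le_sum_of_subset_of_nonneg
    · intro m hm
      rw [mem_image] at hm
      obtain ⟨q, hq, rfl⟩ := hm
      have h4 := hWq q hq
      rw [mem_filter, mem_Icc] at hq
      rw [mem_Icc]
      exact ⟨Nat.mul_pos (by omega) (by omega), Nat.le_floor h4⟩
    · intro m _ _
      exact Emax_nonneg c x m
  have hS2 : ∑ q ∈ (Icc 1 n).filter Squarefree, ((K : ℝ) ^ 2) ^ q.primeFactors.card *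
      Emax c x (W * q) ≤ C3 * x * Lg ^ (K ^ 2 + 1) := by
    have hstep : ∀ q ∈ (Icc 1 n).filter Squarefree, ((K : ℝ) ^ 2) ^ q.primeFactors.card *
        Emax c x (W * q) ≤ ((22 + C1) * c * x * Lg) *
          (((K : ℝ) ^ 2) ^ q.primeFactors.card / q.totient) := by
      intro q hq
      have h4 := hWq q hq
      rw [mem_filter, mem_Icc] at hq
      have hWq0 : 0 < W * q := Nat.mul_pos (by omega) (by omega)
      have h5 := bvt_Emax c (W * q) x C1 hc hWq0 hx3 hxc (h4.trans hx15) hC1 hTH0' hTH hL1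
      have hq1 : (0 : ℝ) < q.totient := by exact_mod_cast Nat.totient_pos.2 (by omega)
      have h6 : (q.totient : ℝ) ≤ (W * q).totient := by
        exact_mod_cast Nat.le_of_dvd (Nat.totient_pos.2 hWq0)
          (Nat.totient_dvd_of_dvd (dvd_mul_left q W))
      have h7 : (22 + C1) * c * x * Lg / (W * q).totient ≤ (22 + C1) * c * x * Lg / q.totient :=
        div_le_div_of_nonneg_left (by positivity) hq1 h6
      calc ((K : ℝ) ^ 2) ^ q.primeFactors.card * Emax c x (W * q) ≤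
            ((K : ℝ) ^ 2) ^ q.primeFactors.card * ((22 + C1) * c * x * Lg / q.totient) :=
            mul_le_mul_of_nonneg_left (h5.trans h7) (by positivity)
        _ = _ := by ring
    refine (sum_le_sum hstep).trans ?_
    rw [← mul_sum]
    have h4 : ∑ q ∈ (Icc 1 n).filter Squarefree, ((K : ℝ) ^ 2) ^ q.primeFactors.card / q.totient ≤
        Real.exp ((K : ℝ) ^ 2 * CM) * Lg ^ (K ^ 2) := by
      refine (bvt_euler n K).trans ?_
      have h5 : ∏ p ∈ (Icc 2 n).filter Nat.Prime, (1 + (K : ℝ) ^ 2 * (1 / ((p : ℝ) - 1))) ≤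
          Real.exp (∑ p ∈ (Icc 2 n).filter Nat.Prime, (K : ℝ) ^ 2 * (1 / ((p : ℝ) - 1))) := by
        rw [Real.exp_sum]
        apply prod_le_prod
        · intro p hp
          rw [mem_filter, mem_Icc] at hp
          have h6 : (2 : ℝ) ≤ p := by exact_mod_cast hp.1.1
          have : 0 ≤ 1 / ((p : ℝ) - 1) := div_nonneg (by norm_num) (by linarith)
          positivity
        · intro p _
          rw [add_comm]
          exact Real.add_one_le_exp _
      refine h5.trans ?_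
      rw [← mul_sum]
      have h6 : ∑ p ∈ (Icc 2 n).filter Nat.Prime, 1 / ((p : ℝ) - 1) ≤ Real.log Lg + CM := by
        refine le_trans ?_ (hM x hx3).2
        apply sum_le_sum_of_subset_of_nonneg
        · intro p hp
          rw [mem_filter, mem_Icc] at hp ⊢
          refine ⟨⟨hp.1.1, hp.1.2.trans ?_⟩, hp.2⟩
          apply Nat.floor_mono
          calc x ^ (1 / 6 : ℝ) ≤ x ^ (1 : ℝ) :=
                Real.rpow_le_rpow_of_exponent_le hx1 (by norm_num)
            _ = x := Real.rpow_one x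
        · intro p hp _
          rw [mem_filter, mem_Icc] at hp
          have h6 : (2 : ℝ) ≤ p := by exact_mod_cast hp.1.1
          exact div_nonneg (by norm_num) (by linarith)
      calc Real.exp ((K : ℝ) ^ 2 * ∑ p ∈ (Icc 2 n).filter Nat.Prime, 1 / ((p : ℝ) - 1)) ≤
            Real.exp ((K : ℝ) ^ 2 * (Real.log Lg + CM)) :=
            Real.exp_le_exp.2 (mul_le_mul_of_nonneg_left h6 (by positivity))
        _ = Real.exp ((K : ℝ) ^ 2 * CM) * Lg ^ (K ^ 2) := by
          have h7 : Lg ^ (K ^ 2) = Real.exp ((K : ℝ) ^ 2 * Real.log Lg) := by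
            have : ((K : ℝ) ^ 2) = ((K ^ 2 : ℕ) : ℝ) := by push_cast; ring
            rw [this, Real.exp_nat_mul, Real.exp_log hL0]
          rw [h7, ← Real.exp_add]
          congr 1
          ring
    calc (22 + C1) * c * x * Lg * ∑ q ∈ (Icc 1 n).filter Squarefree,
          ((K : ℝ) ^ 2) ^ q.primeFactors.card / q.totient ≤
          (22 + C1) * c * x * Lg * (Real.exp ((K : ℝ) ^ 2 * CM) * Lg ^ (K ^ 2)) :=
          mul_le_mul_of_nonneg_left h4 (by positivity)
      _ = C3 * x * Lg ^ (K ^ 2 + 1) := by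
        rw [hC3, pow_succ]
        ring
  -- arithmetic-geometric mean
  set D := Lg ^ (A + K ^ 2 + 2) with hD
  have hDp : 0 < D := by positivity
  have hag : ∀ q ∈ (Icc 1 n).filter Squarefree, (K : ℝ) ^ q.primeFactors.card * Emax c x (W * q) ≤
      1 / 2 * (1 / D) * (((K : ℝ) ^ 2) ^ q.primeFactors.card * Emax c x (W * q)) +
        1 / 2 * D * Emax c x (W * q) := by
    intro q _
    have hE := Emax_nonneg c x (W * q)
    have h4 : (K : ℝ) ^ q.primeFactors.card ≤ 1 / 2 * (1 / D) * ((K : ℝ) ^ 2) ^ q.primeFactors.card +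
        1 / 2 * D := by
      rw [← pow_mul, mul_comm 2, pow_mul]
      set u := (K : ℝ) ^ q.primeFactors.card
      have h5 : 0 ≤ (u - D) ^ 2 / (2 * D) := by positivity
      have h6 : (u - D) ^ 2 / (2 * D) = 1 / 2 * (1 / D) * u ^ 2 + 1 / 2 * D - u := by
        field_simp
        ring
      linarith
    calc (K : ℝ) ^ q.primeFactors.card * Emax c x (W * q) ≤
          (1 / 2 * (1 / D) * ((K : ℝ) ^ 2) ^ q.primeFactors.card + 1 / 2 * D) * Emax c x (W * q) :=
          mul_le_mul_of_nonneg_right h4 hE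
      _ = _ := by ring
  refine (sum_le_sum hag).trans ?_
  rw [sum_add_distrib, ← mul_sum, ← mul_sum]
  have h4 : 1 / 2 * (1 / D) * ∑ q ∈ (Icc 1 n).filter Squarefree,
      ((K : ℝ) ^ 2) ^ q.primeFactors.card * Emax c x (W * q) ≤
      1 / 2 * (1 / D) * (C3 * x * Lg ^ (K ^ 2 + 1)) :=
    mul_le_mul_of_nonneg_left hS2 (by positivity)
  have h5 : 1 / 2 * D * ∑ q ∈ (Icc 1 n).filter Squarefree, Emax c x (W * q) ≤
      1 / 2 * D * (x / Lg ^ (2 * A + K ^ 2 + 3)) :=
    mul_le_mul_of_nonneg_left hS1 (by positivity)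
  have h6 : 1 / 2 * (1 / D) * (C3 * x * Lg ^ (K ^ 2 + 1)) = 1 / 2 * C3 * x / Lg ^ (A + 1) := by
    have : D = Lg ^ (K ^ 2 + 1) * Lg ^ (A + 1) := by rw [hD, ← pow_add]; congr 1; omega
    rw [this]
    field_simp
  have h7 : 1 / 2 * D * (x / Lg ^ (2 * A + K ^ 2 + 3)) = 1 / 2 * x / Lg ^ (A + 1) := by
    have : Lg ^ (2 * A + K ^ 2 + 3) = D * Lg ^ (A + 1) := by rw [hD, ← pow_add]; congr 1; omega
    rw [this]
    field_simp
  have h8 : 1 / 2 * C3 * x / Lg ^ (A + 1) + 1 / 2 * x / Lg ^ (A + 1) ≤ x / Lg ^ A := by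
    rw [← add_div, pow_succ, div_le_div_iff₀ (by positivity) (by positivity)]
    have h9 : 1 / 2 * C3 * x + 1 / 2 * x ≤ x * Lg := by nlinarith
    have h10 : 0 < Lg ^ A := by positivity
    nlinarith [mul_le_mul_of_nonneg_right h9 h10.le]
  linarith

end MTA
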