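import Pool.Agent.H20.MT.Stmts
import Pool.Agent.H51.Rho.M

/-! Module MERT of project MTA (helper95): Mertens bounds for the sifting primes. -/

set_option autoImplicit false

namespace MTA
open Finset

private theorem mert_set (z : ℝ) : (Icc 2 ⌊z⌋₊).filter Nat.Prime = Pool.Agent.H85.Rho.pr 0 ⌊z⌋₊ := by
  ext p
  rw [Pool.Agent.H85.Rho.mem_pr, mem_filter, mem_Icc]
  constructor
  · rintro ⟨⟨_, h⟩, hp⟩
    exact ⟨⟨hp.pos, h⟩, hp⟩
  · rintro ⟨⟨_, h⟩, hp⟩
    exact ⟨⟨hp.two_le, h⟩, hp⟩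

/-- telescoping bound for `∑ log n / (n (n-1))` -/
private theorem mert_log (N : ℕ) (hN : 1 ≤ N) :
    ∑ n ∈ Ioc 1 N, Real.log n / ((n : ℝ) * ((n : ℝ) - 1)) ≤ 2 - (Real.log N + 2) / N := by
  induction N, hN using Nat.le_induction with
  | base => simp
  | succ m hm ih =>
    rw [Finset.sum_Ioc_succ_top (by omega)]
    have hm0 : (0 : ℝ) < m := by exact_mod_cast hm
    have hm1 : (0 : ℝ) < (m : ℝ) + 1 := by linarith
    have key : Real.log ((m + 1 : ℕ) : ℝ) / (((m + 1 : ℕ) : ℝ) * (((m + 1 : ℕ) : ℝ) - 1)) ≤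
        (Real.log m + 2) / m - (Real.log ((m + 1 : ℕ) : ℝ) + 2) / ((m + 1 : ℕ) : ℝ) := by
      push_cast
      have h1 : Real.log ((m : ℝ) + 1) - Real.log m ≤ 1 / m := by
        rw [← Real.log_div hm1.ne' hm0.ne']
        have h2 := Real.log_le_sub_one_of_pos (x := ((m : ℝ) + 1) / m) (by positivity)
        have h3 : ((m : ℝ) + 1) / m - 1 = 1 / m := by field_simp; ring
        linarith
      have h2 : (1 : ℝ) ≤ m := by exact_mod_cast hm
      have h3 : ((m : ℝ) + 1) * (Real.log ((m : ℝ) + 1) - Real.log m) ≤ 2 := by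
        calc ((m : ℝ) + 1) * (Real.log ((m : ℝ) + 1) - Real.log m) ≤ ((m : ℝ) + 1) * (1 / m) :=
              mul_le_mul_of_nonneg_left h1 hm1.le
          _ = 1 + 1 / m := by field_simp
          _ ≤ 2 := by
            have : 1 / (m : ℝ) ≤ 1 := by rw [div_le_one hm0]; exact h2
            linarith
      have e : (Real.log m + 2) / m - (Real.log ((m : ℝ) + 1) + 2) / ((m : ℝ) + 1) =
          (Real.log ((m : ℝ) + 1) + 2 - ((m : ℝ) + 1) * (Real.log ((m : ℝ) + 1) - Real.log m)) /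
            (((m : ℝ) + 1) * (((m : ℝ) + 1) - 1)) := by
        have e1 : ((m : ℝ) + 1) - 1 = m := by ring
        rw [e1]
        field_simp
        ring
      rw [e]
      apply div_le_div_of_nonneg_right _ (by
        have : ((m : ℝ) + 1) - 1 = m := by ring
        rw [this]; positivity)
      linarith
    push_cast at key ih ⊢
    linarith

private theorem mert_one (N : ℕ) (hN : 1 ≤ N) :
    ∑ n ∈ Ioc 1 N, 1 / ((n : ℝ) * ((n : ℝ) - 1)) ≤ 1 - 1 / N := by
  induction N, hN using Nat.le_induction with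
  | base => simp
  | succ m hm ih =>
    rw [Finset.sum_Ioc_succ_top (by omega)]
    have hm0 : (0 : ℝ) < m := by exact_mod_cast hm
    have hm1 : (0 : ℝ) < (m : ℝ) + 1 := by linarith
    have e : 1 / (((m + 1 : ℕ) : ℝ) * (((m + 1 : ℕ) : ℝ) - 1)) = 1 / m - 1 / ((m + 1 : ℕ) : ℝ) := by
      push_cast
      have : ((m : ℝ) + 1) - 1 = m := by ring
      rw [this]
      field_simp
      ring
    rw [e]
    linarith

theorem MERT : S_MERT := by
  obtain ⟨C, hC, hR⟩ := Pool.Agent.H85.Rho.mertens_recip'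
  have hl4 : 0 < Real.log 4 := Real.log_pos (by norm_num)
  refine ⟨C + Real.log 4 + 3, by linarith, fun z hz => ?_⟩
  set n := ⌊z⌋₊ with hn
  have hn3 : 3 ≤ n := Nat.le_floor (by exact_mod_cast hz)
  have hnz : (n : ℝ) ≤ z := Nat.floor_le (by linarith)
  have hn0 : (0 : ℝ) < n := by
    have : (3 : ℝ) ≤ n := by exact_mod_cast hn3
    linarith
  rw [mert_set z, ← hn]
  have hsub : Pool.Agent.H85.Rho.pr 0 n ⊆ Ioc 1 n := by
    intro p hp
    rw [Pool.Agent.H85.Rho.mem_pr] at hp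
    rw [mem_Ioc]
    exact ⟨hp.2.one_lt, hp.1.2⟩
  have hp2 : ∀ p ∈ Pool.Agent.H85.Rho.pr 0 n, (2 : ℝ) ≤ p := by
    intro p hp
    rw [Pool.Agent.H85.Rho.mem_pr] at hp
    exact_mod_cast hp.2.two_le
  have hI : ∀ p ∈ Ioc 1 n, (2 : ℝ) ≤ p := by
    intro p hp
    rw [mem_Ioc] at hp
    exact_mod_cast (by omega : 2 ≤ p)
  have hlogn : Real.log n ≤ Real.log z := Real.log_le_log hn0 hnz
  have hlog1 : 1 ≤ Real.log n := by
    have h3 : (3 : ℝ) ≤ n := by exact_mod_cast hn3
    have : Real.exp 1 ≤ n := by linarith [Real.exp_one_lt_d9]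
    calc (1 : ℝ) = Real.log (Real.exp 1) := (Real.log_exp 1).symm
      _ ≤ Real.log n := Real.log_le_log (Real.exp_pos 1) this
  constructor
  · have h1 : ∑ p ∈ Pool.Agent.H85.Rho.pr 0 n, Real.log p / ((p : ℝ) - 1) =
        Pool.Agent.H85.Rho.AA n +
          ∑ p ∈ Pool.Agent.H85.Rho.pr 0 n, Real.log p / ((p : ℝ) * ((p : ℝ) - 1)) := by
      unfold Pool.Agent.H85.Rho.AA
      rw [← sum_add_distrib]
      refine sum_congr rfl fun p hp => ?_
      have h2 := hp2 p hp
      have h3 : (p : ℝ) - 1 ≠ 0 := by intro h; linarith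
      have h4 : (p : ℝ) ≠ 0 := by intro h; linarith
      field_simp
      ring
    have h2 : ∑ p ∈ Pool.Agent.H85.Rho.pr 0 n, Real.log p / ((p : ℝ) * ((p : ℝ) - 1)) ≤
        ∑ p ∈ Ioc 1 n, Real.log p / ((p : ℝ) * ((p : ℝ) - 1)) := by
      apply sum_le_sum_of_subset_of_nonneg hsub
      intro p hp _
      have h2 := hI p hp
      apply div_nonneg (Real.log_nonneg (by linarith))
      apply mul_nonneg <;> linarith
    have h3 := mert_log n (by omega)
    have h4 : 0 ≤ (Real.log n + 2) / (n : ℝ) := by positivity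
    have h5 := Pool.Agent.H85.Rho.AA_le (n := n) (by omega)
    linarith
  · have h1 : ∑ p ∈ Pool.Agent.H85.Rho.pr 0 n, 1 / ((p : ℝ) - 1) =
        ∑ p ∈ Pool.Agent.H85.Rho.pr 0 n, 1 / (p : ℝ) +
          ∑ p ∈ Pool.Agent.H85.Rho.pr 0 n, 1 / ((p : ℝ) * ((p : ℝ) - 1)) := by
      rw [← sum_add_distrib]
      refine sum_congr rfl fun p hp => ?_
      have h2 := hp2 p hp
      have h3 : (p : ℝ) - 1 ≠ 0 := by intro h; linarith
      have h4 : (p : ℝ) ≠ 0 := by intro h; linarith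
      field_simp
      ring
    have h2 : ∑ p ∈ Pool.Agent.H85.Rho.pr 0 n, 1 / ((p : ℝ) * ((p : ℝ) - 1)) ≤
        ∑ p ∈ Ioc 1 n, 1 / ((p : ℝ) * ((p : ℝ) - 1)) := by
      apply sum_le_sum_of_subset_of_nonneg hsub
      intro p hp _
      have h2 := hI p hp
      apply div_nonneg (by norm_num)
      apply mul_nonneg <;> linarith
    have h3 := mert_one n (by omega)
    have h4 : 0 ≤ 1 / (n : ℝ) := by positivity
    have h5 := hR n (by omega)
    have h6 : Real.log (Real.log n) ≤ Real.log (Real.log z) :=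
      Real.log_le_log (by linarith) hlogn
    linarith

end MTA
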