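import Pool.Agent.H20.MT.Stmts

/-! Module TU2 of project MTA (helper95): exponents with private primes of odd valuation. -/

set_option autoImplicit false

namespace MTA
open Finset

/-- Chinese remainder theorem with increasing solutions -/
private theorem tu2_crt {n : ℕ} {ι : Type} [Fintype ι] [DecidableEq ι] (s : ι → ℕ) (hs : ∀ i, s i ≠ 0)
    (hc : ∀ i j, i ≠ j → (s i).Coprime (s j)) (r : Fin n → ι → ℕ) :
    ∃ e : Fin n → ℕ, StrictMono e ∧ (∀ k, 3 ≤ e k) ∧ ∀ k i, e k ≡ r k i [MOD s i] := by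
  have h1 : ∀ k, ∃ c, ∀ i, c ≡ r k i [MOD s i] := fun k => by
    obtain ⟨c, hc'⟩ := Nat.chineseRemainderOfFinset (r k) s univ (fun i _ => hs i)
      (fun i _ j _ hij => hc i j hij)
    exact ⟨c, fun i => hc' i (mem_univ i)⟩
  choose c hc using h1
  set Mt := ∏ i, s i with hM
  have hMpos : 0 < Mt := Finset.prod_pos fun i _ => Nat.pos_of_ne_zero (hs i)
  refine ⟨fun k => c k % Mt + 3 * ((k : ℕ) + 1) * Mt, ?_, ?_, ?_⟩
  · intro a b hab
    have h1 := Nat.mod_lt (c a) hMpos
    have h2 : (a : ℕ) + 1 ≤ b := hab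
    have h3 : 3 * ((a : ℕ) + 1) * Mt + 3 * Mt ≤ 3 * ((b : ℕ) + 1) * Mt := by nlinarith
    show c a % Mt + 3 * ((a : ℕ) + 1) * Mt < c b % Mt + 3 * ((b : ℕ) + 1) * Mt
    omega
  · intro k
    show 3 ≤ c k % Mt + 3 * ((k : ℕ) + 1) * Mt
    nlinarith [Nat.zero_le (c k % Mt), Nat.zero_le (k : ℕ)]
  · intro k i
    have hd : s i ∣ Mt := dvd_prod_of_mem s (mem_univ i)
    have h1 : c k % Mt + 3 * ((k : ℕ) + 1) * Mt ≡ c k % Mt [MOD Mt] := by
      simp [Nat.ModEq, Nat.add_mul_mod_self_right]
    exact ((h1.trans (Nat.mod_modEq _ _)).of_dvd hd).trans (hc k i)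

/-- the prime divides a power of two minus one -/
private theorem tu2_dvd {l p m : ℕ} (ho : orderOf (2 : ZMod l) = p) : l ∣ 2 ^ m - 1 ↔ p ∣ m := by
  rw [← ho, orderOf_dvd_iff_pow_eq_one, ← ZMod.natCast_eq_zero_iff]
  have h1 : 1 ≤ 2 ^ m := Nat.one_le_two_pow
  push_cast [Nat.cast_sub h1]
  rw [sub_eq_zero]

/-- the valuation of the difference -/
private theorem tu2_val {l d a b t : ℕ} (hl : l.Prime) (hdab : d + a = b) (ha : l ^ 2 ∣ a)
    (ht : t = 0 ∨ t = 1) (hb : b ≡ l ^ t [MOD l ^ 2]) : padicValNat l d = t := by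
  haveI : Fact l.Prime := ⟨hl⟩
  have h1 : d ≡ l ^ t [MOD l ^ 2] := by
    have h2 : d + a ≡ d + 0 [MOD l ^ 2] := Nat.ModEq.add_left d ((Nat.modEq_zero_iff_dvd).2 ha)
    rw [add_zero] at h2
    exact h2.symm.trans (hdab ▸ hb)
  rcases ht with rfl | rfl
  · apply padicValNat.eq_zero_of_not_dvd
    intro h3
    have h4 : d ≡ l ^ 0 [MOD l] := h1.of_dvd (dvd_pow_self l (by norm_num))
    have h5 : (0 : ℕ) ≡ 1 [MOD l] := by
      have := ((Nat.modEq_zero_iff_dvd).2 h3).symm.trans h4
      simpa using this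
    have h6 : l ∣ 1 := (Nat.modEq_zero_iff_dvd).1 h5.symm
    exact hl.one_lt.ne' (Nat.dvd_one.1 h6)
  · rw [pow_one] at h1
    have hld : l ∣ d := by
      have h4 : d ≡ l [MOD l] := h1.of_dvd (dvd_pow_self l (by norm_num))
      exact (Nat.modEq_zero_iff_dvd).1 (h4.trans ((Nat.modEq_zero_iff_dvd).2 dvd_rfl))
    have hl2 : ¬ l ^ 2 ∣ d := by
      intro h3
      have h5 : l ≡ 0 [MOD l ^ 2] := h1.symm.trans ((Nat.modEq_zero_iff_dvd).2 h3)
      have h6 := Nat.le_of_dvd hl.pos ((Nat.modEq_zero_iff_dvd).1 h5)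
      have := hl.two_le
      nlinarith
    have hd0 : d ≠ 0 := fun h => hl2 (h ▸ dvd_zero _)
    have h7 : 1 ≤ padicValNat l d := by
      have := (padicValNat_dvd_iff 1 (p := l) d).1 (by rwa [pow_one])
      rcases this with h | h
      · exact absurd h hd0
      · exact h
    have h8 : ¬ 2 ≤ padicValNat l d := fun h => hl2 ((padicValNat_dvd_iff 2 (p := l) d).2 (Or.inr h))
    omega

theorem TU2 (h1 : S_TU1) : S_TU2 := by
  intro n N0
  obtain ⟨π, l, hpl⟩ := h1 (max N0 (n + 2))
  have hπp : ∀ s, (π s).Prime := fun s => (hpl s).1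
  have hlp : ∀ s, (l s).Prime := fun s => (hpl s).2.1
  have hπN : ∀ s, N0 < π s ∧ n + 2 < π s := fun s =>
    ⟨(le_max_left _ _).trans_lt (hpl s).2.2.1, (le_max_right _ _).trans_lt (hpl s).2.2.1⟩
  have hπl : ∀ s, π s < l s := fun s => (hpl s).2.2.2.1
  have hlπ : ∀ s, l s < π (s + 1) := fun s => (hpl s).2.2.2.2.1
  have hord : ∀ s, orderOf (2 : ZMod (l s)) = π s := fun s => (hpl s).2.2.2.2.2
  have hπm : StrictMono π := strictMono_nat_of_lt_succ fun s => (hπl s).trans (hlπ s)
  have hlm : StrictMono l := strictMono_nat_of_lt_succ fun s => (hlπ s).trans (hπl (s + 1))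
  have hne : ∀ s t, π s ≠ l t := by
    intro s t
    rcases le_or_gt s t with h | h
    · have h2 := hπm.monotone h
      have h3 := hπl t
      omega
    · have h2 : π (t + 1) ≤ π s := hπm.monotone h
      have h3 := hlπ t
      omega
  obtain ⟨ix, hix⟩ : ∃ ix : Fin n × Fin n → ℕ, Function.Injective ix :=
    ⟨fun p => (finProdFinEquiv p : ℕ), fun p q h => finProdFinEquiv.injective (Fin.ext h)⟩
  obtain ⟨ε, hε⟩ : ∃ ε : Fin n × Fin n → ℕ, ∀ p, (ε p = 0 ∨ ε p = 1) ∧
      Odd (padicValNat (l (ix p)) (2 ^ π (ix p) - 1) + ε p) := by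
    have : ∀ p : Fin n × Fin n, ∃ t : ℕ, (t = 0 ∨ t = 1) ∧
        Odd (padicValNat (l (ix p)) (2 ^ π (ix p) - 1) + t) := by
      intro p
      rcases Nat.even_or_odd (padicValNat (l (ix p)) (2 ^ π (ix p) - 1)) with h | h
      · exact ⟨1, Or.inr rfl, h.add_one⟩
      · exact ⟨0, Or.inl rfl, h⟩
    choose ε hε using this
    exact ⟨ε, hε⟩
  let s : Option ((Fin n × Fin n) × Bool) → ℕ := fun x => match x with
    | none => N0.factorial
    | some (p, false) => π (ix p)
    | some (p, true) => l (ix p) ^ 2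
  let r : Fin n → Option ((Fin n × Fin n) × Bool) → ℕ := fun k x => match x with
    | none => 0
    | some (p, false) => if k = p.1 ∨ k = p.2 then 0 else (k : ℕ) + 1
    | some (p, true) => if k = p.2 then l (ix p) ^ ε p else 0
  have hs0 : ∀ x, s x ≠ 0 := by
    intro x
    match x with
    | none => exact Nat.factorial_ne_zero _
    | some (p, false) => exact (hπp _).ne_zero
    | some (p, true) => exact pow_ne_zero 2 (hlp _).ne_zero
  have hl0 : ∀ s, N0 < l s := fun s => (hπN s).1.trans (hπl s)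
  have hc : ∀ x y, x ≠ y → (s x).Coprime (s y) := by
    intro x y hxy
    match x, y with
    | none, none => exact absurd rfl hxy
    | none, some (p, false) => exact ((hπp (ix p)).coprime_factorial_of_lt (hπN _).1).symm
    | none, some (p, true) =>
      exact (Nat.Coprime.pow_left 2 ((hlp (ix p)).coprime_factorial_of_lt (hl0 _))).symm
    | some (p, false), none => exact (hπp (ix p)).coprime_factorial_of_lt (hπN _).1
    | some (p, true), none =>
      exact Nat.Coprime.pow_left 2 ((hlp (ix p)).coprime_factorial_of_lt (hl0 _))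
    | some (p, false), some (q, false) =>
      have hpq : p ≠ q := fun h => hxy (by rw [h])
      exact (Nat.coprime_primes (hπp _) (hπp _)).2 fun h => hpq (hix (hπm.injective h))
    | some (p, false), some (q, true) =>
      exact Nat.Coprime.pow_right 2 ((Nat.coprime_primes (hπp _) (hlp _)).2 (hne _ _))
    | some (p, true), some (q, false) =>
      exact Nat.Coprime.pow_left 2 ((Nat.coprime_primes (hlp _) (hπp _)).2 (hne _ _).symm)
    | some (p, true), some (q, true) =>
      have hpq : p ≠ q := fun h => hxy (by rw [h])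
      exact Nat.Coprime.pow_left 2 (Nat.Coprime.pow_right 2 ((Nat.coprime_primes (hlp _) (hlp _)).2
        fun h => hpq (hix (hlm.injective h))))
  obtain ⟨e, he1, he2, he3⟩ := tu2_crt s hs0 hc r
  refine ⟨e, fun i j => l (ix (i, j)), he1, he2, fun i => ?_, fun i j hij => ?_⟩
  · exact (Nat.modEq_zero_iff_dvd).1 (he3 i none)
  · have hlij := hlp (ix (i, j))
    haveI : Fact (l (ix (i, j))).Prime := ⟨hlij⟩
    have hA : ∀ k, e k ≡ (if k = i ∨ k = j then 0 else (k : ℕ) + 1) [MOD π (ix (i, j))] := fun k =>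
      he3 k (some ((i, j), false))
    have hB : ∀ k, e k ≡ (if k = j then l (ix (i, j)) ^ ε (i, j) else 0) [MOD l (ix (i, j)) ^ 2] := fun k =>
      he3 k (some ((i, j), true))
    have hl2 : l (ix (i, j)) ≠ 2 := by
      have := (hπN (ix (i, j))).2
      have := hπl (ix (i, j))
      omega
    have hodd : Odd (l (ix (i, j))) := hlij.odd_of_ne_two hl2
    have heij : e i < e j := he1 hij
    refine ⟨hlij, hl0 _, ?_, ?_⟩
    · -- valuation
      have hπi : π (ix (i, j)) ∣ e i := by
        have := hA i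
        rw [if_pos (Or.inl rfl)] at this
        exact (Nat.modEq_zero_iff_dvd).1 this
      have hπj : π (ix (i, j)) ∣ e j := by
        have := hA j
        rw [if_pos (Or.inr rfl)] at this
        exact (Nat.modEq_zero_iff_dvd).1 this
      obtain ⟨m, hm⟩ : π (ix (i, j)) ∣ e j - e i := Nat.dvd_sub hπj hπi
      have hm0 : m ≠ 0 := by
        rintro rfl
        omega
      have hli : l (ix (i, j)) ^ 2 ∣ e i := by
        have := hB i
        rw [if_neg (ne_of_lt hij)] at this
        exact (Nat.modEq_zero_iff_dvd).1 this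
      have hlj := hB j
      rw [if_pos rfl] at hlj
      have hv := tu2_val hlij (d := e j - e i) (a := e i) (b := e j) (by omega) hli (hε (i, j)).1 hlj
      have hπ0 : π (ix (i, j)) ≠ 0 := (hπp _).ne_zero
      have hvπ : padicValNat (l (ix (i, j))) (π (ix (i, j))) = 0 := by
        apply padicValNat.eq_zero_of_not_dvd
        intro h
        exact hne _ _ ((Nat.prime_dvd_prime_iff_eq hlij (hπp _)).1 h).symm
      rw [hm, padicValNat.mul hπ0 hm0, hvπ, zero_add] at hv
      have hx1 : 1 < 2 ^ π (ix (i, j)) := Nat.one_lt_two_pow hπ0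
      have hx2 : l (ix (i, j)) ∣ 2 ^ π (ix (i, j)) - 1 := (tu2_dvd (hord _)).2 dvd_rfl
      have hx3 : ¬ l (ix (i, j)) ∣ 2 ^ π (ix (i, j)) := by
        intro h
        exact hl2 ((Nat.prime_dvd_prime_iff_eq hlij Nat.prime_two).1 (hlij.dvd_of_dvd_pow h))
      have h5 := padicValNat.pow_sub_pow (p := l (ix (i, j))) hodd hx1 hx2 hx3 hm0
      rw [one_pow, ← pow_mul, ← hm, hv] at h5
      rw [h5]
      exact (hε (i, j)).2
    · -- private
      intro k h hkh hne' hdv
      rw [tu2_dvd (hord _)] at hdv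
      have hek : e k ≤ e h := (he1 hkh).le
      have h6 : e k ≡ e h [MOD π (ix (i, j))] := (Nat.modEq_iff_dvd' hek).2 hdv
      have h7 := (hA k).symm.trans (h6.trans (hA h))
      have hb : ∀ k : Fin n, (if k = i ∨ k = j then 0 else (k : ℕ) + 1) < π (ix (i, j)) := by
        intro k
        have h8 := (hπN (ix (i, j))).2
        have h9 := k.2
        split_ifs
        · omega
        · omega
      have h8 := Nat.ModEq.eq_of_lt_of_lt h7 (hb k) (hb h)
      have h9 : (k : ℕ) < h := hkh
      by_cases hk : k = i ∨ k = j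
      · rw [if_pos hk] at h8
        by_cases hh : h = i ∨ h = j
        · apply hne'
          have hij' : (i : ℕ) < j := hij
          rcases hk with rfl | rfl
          · rcases hh with rfl | rfl
            · exact absurd h9 (lt_irrefl _)
            · rfl
          · rcases hh with rfl | rfl
            · omega
            · exact absurd h9 (lt_irrefl _)
        · rw [if_neg hh] at h8
          omega
      · rw [if_neg hk] at h8
        by_cases hh : h = i ∨ h = j
        · rw [if_pos hh] at h8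
          omega
        · rw [if_neg hh] at h8
          omega

end MTA
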